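import Pool.Agent.H80.Grw9

set_option autoImplicit false

namespace Pool.Agent.Results.MP_4770bc_pr.Recurrent

open Pool.Agent.H80.Grw MeasureTheory

theorem result : ∃ (V : Type) (G : SimpleGraph V) (v0 : V), Infinite V ∧ Countable V ∧
    G.Connected ∧ (∀ v, (G.neighborSet v).Finite) ∧ NonAmenable G ∧
    ∃ (_ : MeasurableSpace V) (_ : DiscreteMeasurableSpace V),
      (∃ μ : Measure (ℕ → V), IsGRW G v0 μ) ∧
      ∀ μ : Measure (ℕ → V), IsGRW G v0 μ → ∀ᵐ x ∂μ, {t | x t = v0}.Infinite :=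
  ⟨Vx P0, GG P0, hub P0 0, inferInstance, inferInstance, conn, fin_nb, nonam, pack P0⟩

end Pool.Agent.Results.MP_4770bc_pr.Recurrent
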